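import Mathlib

namespace Pool.Agent.Work.MP_e0d07f_co

/-- `G` is weakly `F`-saturated: the edges of the complement of `G` can be listed as
`e_1, …, e_m` so that for each `i` the graph `G + e_1 + ⋯ + e_i` contains a copy of `F`
that uses the edge `e_i`. -/
def WeaklySaturated {W V : Type} (F : SimpleGraph W) (G : SimpleGraph V) : Prop :=
  ∃ l : List (Sym2 V), l.Nodup ∧ (∀ e, e ∈ l ↔ e ∈ Gᶜ.edgeSet) ∧
    ∀ i : Fin l.length,
      ∃ f : F.Copy (G ⊔ SimpleGraph.fromEdgeSet {e | e ∈ l.take (i.val + 1)}),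
        ∃ e ∈ F.edgeSet, Sym2.map f e = l.get i

/-- `wsat F n` is the least number of edges of a weakly `F`-saturated graph on `n` vertices. -/
noncomputable def wsat {W : Type} (F : SimpleGraph W) (n : ℕ) : ℕ :=
  sInf {m | ∃ G : SimpleGraph (Fin n), WeaklySaturated F G ∧ G.edgeSet.ncard = m}

end Pool.Agent.Work.MP_e0d07f_co
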